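import Mathlib

/-!
# Uncountably many, but not perfectly many, pairwise disjoint translates of a Borel set

We construct, in ZFC, a Borel subset `B` of the Cantor group `2 ^ ω` having uncountably many
pairwise disjoint translates but no perfect family of pairwise disjoint translates.
-/

set_option autoImplicit false

open Topology Filter Set

namespace Pool.Agent.Results.MP_15e54c_lc.DisjointTranslates

/-- The Cantor group `2 ^ ω`, with coordinatewise addition modulo 2. -/
abbrev G : Type := ℕ → ZMod 2

/-- The translates of `B` by the elements of `H` are pairwise disjoint. -/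
def DisjTranslates {M : Type} [Add M] (B H : Set M) : Prop :=
  ∀ x ∈ H, ∀ y ∈ H, x ≠ y → Disjoint ((fun b => b + x) '' B) ((fun b => b + y) '' B)

/-! ## The independent embedding -/

/-- The `n`-th column of `x`. -/
def col (n : ℕ) (x : G) : G := fun k => x (Nat.pair n k)

/-- The independent embedding of `2 ^ ω` in itself. -/
def e (x : G) : G := fun m =>
  ∏ i ∈ Finset.range (Nat.unpair m).1, (x i + if (Nat.unpair m).2.testBit i then 0 else 1)

lemma continuous_col (n : ℕ) : Continuous (col n) :=
  continuous_pi fun k => continuous_apply (A := fun _ => ZMod 2) (Nat.pair n k)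

lemma continuous_e : Continuous e := by
  refine continuous_pi fun m => ?_
  refine continuous_finsetProd _ fun i _ => ?_
  exact (continuous_apply (A := fun _ => ZMod 2) i).add continuous_const

lemma zmod_two (a : ZMod 2) : a = 0 ∨ a = 1 := by
  fin_cases a
  · left; rfl
  · right; rfl

/-- Every finite binary sequence is coded by the bits of some number. -/
lemma exists_bits (x : G) (k : ℕ) : ∃ N : ℕ, ∀ i < k, (N.testBit i = true ↔ x i = 1) := by
  induction k generalizing x with
  | zero => exact ⟨0, fun i hi => absurd hi (Nat.not_lt_zero i)⟩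
  | succ k ih =>
    obtain ⟨N, hN⟩ := ih (fun i => x (i + 1))
    refine ⟨Nat.bit (decide (x 0 = 1)) N, fun i hi => ?_⟩
    rcases i with _ | i
    · simp
    · rw [Nat.testBit_bit_succ]
      exact hN i (by omega)

lemma e_separates (x : G) (F : Finset G) (hx : x ∉ F) :
    ∃ m, e x m = 1 ∧ ∀ y ∈ F, e y m = 0 := by
  classical
  have h1 : ∀ y ∈ F, ∃ i, x i ≠ y i := fun y hy => by
    by_contra h
    push Not at h
    exact hx (by rw [show x = y from funext h]; exact hy)
  choose! d hd using h1
  obtain ⟨N, hN⟩ := exists_bits x (F.sup d + 1)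
  refine ⟨Nat.pair (F.sup d + 1) N, ?_, fun y hy => ?_⟩
  · unfold e
    rw [Nat.unpair_pair]
    refine Finset.prod_eq_one fun i hi => ?_
    have hi' := hN i (Finset.mem_range.1 hi)
    rcases zmod_two (x i) with h | h
    · have h2 : ¬ N.testBit i = true := by
        rw [hi', h]; decide
      rw [h, if_neg h2]; decide
    · have h2 : N.testBit i = true := by
        rw [hi', h]
      rw [h, if_pos h2]; decide
  · unfold e
    rw [Nat.unpair_pair]
    have hdy : d y < F.sup d + 1 := Nat.lt_succ_of_le (Finset.le_sup hy)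
    refine Finset.prod_eq_zero (Finset.mem_range.2 hdy) ?_
    have hi' := hN (d y) hdy
    have hne := hd y hy
    rcases zmod_two (x (d y)) with h | h
    · have h2 : ¬ N.testBit (d y) = true := by
        rw [hi', h]; decide
      rcases zmod_two (y (d y)) with h3 | h3
      · exact absurd (h.trans h3.symm) hne
      · rw [h3, if_neg h2]; decide
    · have h2 : N.testBit (d y) = true := by
        rw [hi', h]
      rcases zmod_two (y (d y)) with h3 | h3
      · rw [h3, if_pos h2]; decide
      · exact absurd (h.trans h3.symm) hne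

lemma e_independent : LinearIndependent (ZMod 2) e := by
  classical
  rw [linearIndependent_iff']
  intro s g hg i hi
  obtain ⟨m, hm1, hm2⟩ := e_separates i (s.erase i) (Finset.notMem_erase i s)
  have h := congrFun hg m
  rw [Finset.sum_apply, ← Finset.add_sum_erase s _ hi] at h
  have h2 : ∑ x ∈ s.erase i, (g x • e x) m = 0 := by
    refine Finset.sum_eq_zero fun y hy => ?_
    rw [Pi.smul_apply, hm2 y hy, smul_zero]
  rw [h2, Pi.smul_apply, hm1] at h
  simpa using h

/-- A linear map recovering the coordinates with respect to the independent family `e`. -/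
lemma exists_coord : ∃ L : G →ₗ[ZMod 2] (G →₀ ZMod 2), ∀ x, L (e x) = Finsupp.single x 1 := by
  have hinj : Function.Injective (Finsupp.linearCombination (ZMod 2) e) := e_independent
  obtain ⟨L, hL⟩ := (Finsupp.linearCombination (ZMod 2) e).exists_leftInverse_of_injective
    (LinearMap.ker_eq_bot.2 hinj)
  refine ⟨L, fun x => ?_⟩
  have h := LinearMap.congr_fun hL (Finsupp.single x 1)
  simpa using h

lemma e_injective : Function.Injective e := e_independent.injective

lemma e_zero_coord (x : G) : e x 0 = 1 := by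
  unfold e
  simp

lemma add_self (x : G) : x + x = 0 := by
  funext i
  exact CharTwo.add_self_eq_zero (x i)

/-! ## The graph and the set of differences -/

/-- The compact set of all `e (col n y) + e y`. -/
def K (n : ℕ) : Set G := range fun y : G => e (col n y) + e y

lemma isCompact_K (n : ℕ) : IsCompact (K n) :=
  isCompact_range ((continuous_e.comp (continuous_col n)).add continuous_e)

/-- The set of nonzero differences along the edges of the graph. -/
def C : Set G := (⋃ n, K n) \ {0}

/-- The complement of `C`. -/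
def A : Set G := Cᶜ

lemma zero_mem_A : (0 : G) ∈ A := fun h => h.2 rfl

/-- The image `E` of the embedding `e`. -/
def E : Set G := range e

lemma isCompact_E : IsCompact E := isCompact_range continuous_e

/-- Dropping the first coordinate. -/
def tail (x : G) : G := fun n => x (n + 1)

lemma continuous_tail : Continuous tail :=
  continuous_pi fun k => continuous_apply (A := fun _ => ZMod 2) (k + 1)

/-- Dropping the first two coordinates. -/
def tail2 (x : G) : G := fun n => x (n + 2)

lemma continuous_tail2 : Continuous tail2 :=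
  continuous_pi fun k => continuous_apply (A := fun _ => ZMod 2) (k + 2)

/-- The part `B₁ = {(a, 0⌢a) : a ∈ A}`. -/
def B1 : Set (G × G) := {p | p.1 ∈ A ∧ p.2 0 = 0 ∧ tail p.2 = p.1}

/-- The part `B₂ = {(0, 0⌢a) : a ∈ A}`. -/
def B2 : Set (G × G) := {p | p.1 = 0 ∧ p.2 0 = 0 ∧ tail p.2 ∈ A}

/-- The part `B₃ = {(0, w) : w ∉ E} ∪ {(tail2 z, e z)}`. -/
def B3 : Set (G × G) := {p | p.1 = 0 ∧ p.2 ∉ E} ∪ range fun z : G => (tail2 z, e z)

/-- The Borel set. -/
def B : Set (G × G) := B1 ∪ B2 ∪ B3

lemma measurableSet_A : @MeasurableSet G (borel G) A := by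
  let _ : MeasurableSpace G := borel G
  have _ : BorelSpace G := ⟨rfl⟩
  refine MeasurableSet.compl (MeasurableSet.diff ?_ (isClosed_singleton.measurableSet))
  exact MeasurableSet.iUnion fun n => (isCompact_K n).isClosed.measurableSet

lemma measurableSet_B : @MeasurableSet (G × G) (borel (G × G)) B := by
  let _ : MeasurableSpace G := borel G
  have _ : BorelSpace G := ⟨rfl⟩
  let _ : MeasurableSpace (G × G) := borel (G × G)
  have _ : BorelSpace (G × G) := ⟨rfl⟩
  have hA : MeasurableSet A := measurableSet_A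
  have h20 : IsClosed {p : G × G | p.2 0 = 0} :=
    isClosed_eq ((continuous_apply (A := fun _ => ZMod 2) 0).comp continuous_snd)
      continuous_const
  have h10 : IsClosed {p : G × G | p.1 = 0} := isClosed_eq continuous_fst continuous_const
  refine MeasurableSet.union (MeasurableSet.union ?_ ?_) (MeasurableSet.union ?_ ?_)
  · have h1 : MeasurableSet {p : G × G | p.1 ∈ A} := continuous_fst.measurable hA
    have h3 : IsClosed {p : G × G | tail p.2 = p.1} :=
      isClosed_eq (continuous_tail.comp continuous_snd) continuous_fst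
    exact h1.inter (h20.measurableSet.inter h3.measurableSet)
  · have h3 : MeasurableSet {p : G × G | tail p.2 ∈ A} :=
      (continuous_tail.comp continuous_snd).measurable hA
    exact h10.measurableSet.inter (h20.measurableSet.inter h3)
  · have h3 : IsOpen {p : G × G | p.2 ∉ E} :=
      isCompact_E.isClosed.isOpen_compl.preimage continuous_snd
    exact h10.measurableSet.inter h3.measurableSet
  · exact (isCompact_range (continuous_tail2.prodMk continuous_e)).isClosed.measurableSet

/-- Sidon property of `E`: three distinct elements of `E` cannot all be moved into `E` by the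
same nonzero translation. -/
lemma sidon {z1 z2 z3 w1 w2 w3 v : G} (hv : v ≠ 0) (h12 : z1 ≠ z2) (h13 : z1 ≠ z3)
    (h23 : z2 ≠ z3) (h1 : e z1 + v = e w1) (h2 : e z2 + v = e w2) (h3 : e z3 + v = e w3) :
    False := by
  classical
  obtain ⟨L, hL⟩ := exists_coord
  have key : ∀ {z w : G}, e z + v = e w → z ≠ w ∧ L v = Finsupp.single z 1 + Finsupp.single w 1 := by
    intro z w h
    have h' : v = e z + e w := by
      rw [← h, ← add_assoc, add_self, zero_add]
    refine ⟨fun hzw => hv ?_, ?_⟩
    · rw [h', hzw, add_self]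
    · rw [h', map_add, hL, hL]
  obtain ⟨n1, k1⟩ := key h1
  obtain ⟨n2, k2⟩ := key h2
  obtain ⟨n3, k3⟩ := key h3
  have a1 := DFunLike.congr_fun (k1.symm.trans k2) z1
  have a2 := DFunLike.congr_fun (k1.symm.trans k3) z1
  have a3 := DFunLike.congr_fun (k2.symm.trans k3) z2
  simp only [Finsupp.add_apply, Finsupp.single_apply, if_true, if_neg n1.symm, if_neg n2.symm,
    if_neg h12.symm, if_neg h13.symm, if_neg h23.symm, zero_add, add_zero] at a1 a2 a3
  have b1 : w2 = z1 := by
    by_contra h
    rw [if_neg h] at a1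
    exact one_ne_zero a1
  have b2 : w3 = z1 := by
    by_contra h
    rw [if_neg h] at a2
    exact one_ne_zero a2
  have b3 : w3 = z2 := by
    by_contra h
    rw [if_neg h] at a3
    exact one_ne_zero a3
  exact h12 (b2.symm.trans b3)

/-- The code of `u` with the first two coordinates `a` and `b`. -/
def code (a b : ZMod 2) (u : G) : G := fun n =>
  match n with
  | 0 => a
  | 1 => b
  | n + 2 => u n

lemma tail2_code (a b : ZMod 2) (u : G) : tail2 (code a b u) = u := rfl

/-- Every element with nonzero second coordinate is a difference of elements of `B`. -/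
lemma add_mem_of_ne {u v : G} (hv : v ≠ 0) : ∃ p ∈ B, ∃ q ∈ B, p + q = (u, v) := by
  have h : ∃ z : G, tail2 z = u ∧ e z + v ∉ E := by
    by_contra hcon
    push Not at hcon
    obtain ⟨w1, h1⟩ := hcon (code 0 0 u) (tail2_code _ _ _)
    obtain ⟨w2, h2⟩ := hcon (code 1 0 u) (tail2_code _ _ _)
    obtain ⟨w3, h3⟩ := hcon (code 0 1 u) (tail2_code _ _ _)
    refine sidon hv ?_ ?_ ?_ h1.symm h2.symm h3.symm
    · intro h; exact absurd (congrFun h 0) (by simp [code])
    · intro h; exact absurd (congrFun h 1) (by simp [code])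
    · intro h; exact absurd (congrFun h 0) (by simp [code])
  obtain ⟨z, hz, hE⟩ := h
  refine ⟨(tail2 z, e z), Or.inr (Or.inr ⟨z, rfl⟩), (0, e z + v), Or.inr (Or.inl ⟨rfl, hE⟩), ?_⟩
  rw [Prod.mk_add_mk, hz, add_zero, ← add_assoc, add_self, zero_add]

lemma fst_of_B12 {p : G × G} (hp : p ∈ B1 ∪ B2) :
    (p.1 = 0 ∨ p.1 = tail p.2) ∧ tail p.2 ∈ A ∧ p.2 0 = 0 := by
  rcases hp with hp | hp
  · exact ⟨Or.inr hp.2.2.symm, by rw [hp.2.2]; exact hp.1, hp.2.1⟩
  · exact ⟨Or.inl hp.1, hp.2.2, hp.2.1⟩

lemma fst_of_B3 {p : G × G} (hp : p ∈ B3) (h : p.2 0 = 0) : p.1 = 0 := by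
  rcases hp with hp | ⟨z, rfl⟩
  · exact hp.1
  · exact absurd ((e_zero_coord z).symm.trans h) one_ne_zero

lemma fst_of_B3' {p q : G × G} (hp : p ∈ B3) (hq : q ∈ B3) (h : p.2 = q.2) : p.1 = q.1 := by
  rcases hp with hp | ⟨z, rfl⟩
  · rcases hq with hq | ⟨w, rfl⟩
    · rw [hp.1, hq.1]
    · exact absurd ⟨w, h.symm⟩ hp.2
  · rcases hq with hq | ⟨w, rfl⟩
    · exact absurd ⟨z, h⟩ hq.2
    · exact congrArg tail2 (e_injective h)

/-- The sums of two elements of `B` with second coordinate `0` have their first coordinate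
in `A`. -/
lemma fst_add_mem {p q : G × G} (hp : p ∈ B) (hq : q ∈ B) (h : p.2 + q.2 = 0) :
    p.1 + q.1 ∈ A := by
  have h2 : p.2 = q.2 := by
    have h3 : p.2 + q.2 + q.2 = q.2 := by rw [h, zero_add]
    rwa [add_assoc, add_self, add_zero] at h3
  rcases hp with hp | hp
  · obtain ⟨p1, p2, p3⟩ := fst_of_B12 hp
    have hq1 : q.1 = 0 ∨ q.1 = tail q.2 := by
      rcases hq with hq | hq
      · exact (fst_of_B12 hq).1
      · exact Or.inl (fst_of_B3 hq (by rw [← h2]; exact p3))
    rw [← h2] at hq1
    rcases p1 with p1 | p1 <;> rcases hq1 with q1 | q1 <;> rw [p1, q1]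
    · rw [add_zero]; exact zero_mem_A
    · rw [zero_add]; exact p2
    · rw [add_zero]; exact p2
    · rw [add_self]; exact zero_mem_A
  · rcases hq with hq | hq
    · obtain ⟨q1, q2, q3⟩ := fst_of_B12 hq
      have hp1 : p.1 = 0 := fst_of_B3 hp (by rw [h2]; exact q3)
      rcases q1 with q1 | q1 <;> rw [hp1, q1]
      · rw [add_zero]; exact zero_mem_A
      · rw [zero_add]; exact q2
    · rw [fst_of_B3' hp hq h2, add_self]
      exact zero_mem_A

/-- Every `(a, 0)` with `a ∈ A` is a sum of two elements of `B`. -/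
lemma add_mem_of_mem_A {a : G} (ha : a ∈ A) : ∃ p ∈ B, ∃ q ∈ B, p + q = (a, 0) := by
  let j : G := fun n => match n with
    | 0 => 0
    | n + 1 => a n
  refine ⟨(a, j), Or.inl (Or.inl ⟨ha, rfl, rfl⟩), (0, j), Or.inl (Or.inr ⟨rfl, rfl, ha⟩), ?_⟩
  rw [Prod.mk_add_mk, add_zero, add_self]

/-- Disjointness of the translates of `B` in terms of the difference. -/
lemma disjoint_iff_mem (x y : G × G) :
    Disjoint ((fun b => b + x) '' B) ((fun b => b + y) '' B) ↔
      (x + y).1 ∈ C ∧ (x + y).2 = 0 := by
  have hself : ∀ z : G × G, z + z = 0 := fun z => Prod.ext (add_self z.1) (add_self z.2)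
  constructor
  · intro h
    have hno : ¬ ∃ p ∈ B, ∃ q ∈ B, p + q = x + y := by
      rintro ⟨p, hp, q, hq, hpq⟩
      refine Set.disjoint_left.1 h ⟨p, hp, rfl⟩ ⟨q, hq, ?_⟩
      change q + y = p + x
      have : p + q + (q + x) = x + y + (q + x) := by rw [hpq]
      have e1 : p + q + (q + x) = p + x + (q + q) := by abel
      have e2 : x + y + (q + x) = q + y + (x + x) := by abel
      rw [e1, e2, hself, hself, add_zero, add_zero] at this
      exact this.symm
    have h2 : (x + y).2 = 0 := by
      by_contra hne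
      obtain ⟨p, hp, q, hq, hpq⟩ := add_mem_of_ne (u := (x + y).1) hne
      exact hno ⟨p, hp, q, hq, hpq⟩
    refine ⟨?_, h2⟩
    by_contra hne
    obtain ⟨p, hp, q, hq, hpq⟩ := add_mem_of_mem_A (a := (x + y).1) hne
    exact hno ⟨p, hp, q, hq, by rw [hpq, ← h2]⟩
  · rintro ⟨h1, h2⟩
    rw [Set.disjoint_left]
    rintro _ ⟨p, hp, rfl⟩ ⟨q, hq, hqp⟩
    change q + y = p + x at hqp
    have h3 : p + q = x + y := by
      have : q + y + (q + x) = p + x + (q + x) := by rw [hqp]
      have e1 : q + y + (q + x) = x + y + (q + q) := by abel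
      have e2 : p + x + (q + x) = p + q + (x + x) := by abel
      rw [e1, e2, hself, hself, add_zero, add_zero] at this
      exact this.symm
    have h4 : p.2 + q.2 = 0 := by
      rw [← h2, ← h3]; rfl
    have h5 := fst_add_mem hp hq h4
    have h6 : p.1 + q.1 = (x + y).1 := by rw [← h3]; rfl
    rw [h6] at h5
    exact h5 h1

/-! ## An uncountable clique -/

/-- `x` and `y` are joined: one of them is a column of the other. -/
def Edge (x y : G) : Prop := (∃ n, x = col n y) ∨ ∃ n, y = col n x

/-- Any sequence of points is the sequence of columns of some point. -/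
lemma exists_cols (c : ℕ → G) : ∃ z : G, ∀ n, col n z = c n := by
  refine ⟨fun m => c (Nat.unpair m).1 (Nat.unpair m).2, fun n => ?_⟩
  funext k
  simp [col, Nat.unpair_pair]

lemma not_countable_G : ¬ (univ : Set G).Countable := by
  intro h
  have h1 : Cardinal.mk G ≤ Cardinal.aleph0 := by
    rw [← Cardinal.mk_univ]
    exact h.le_aleph0
  have h2 : Cardinal.mk G = Cardinal.continuum := by
    simp
  rw [h2] at h1
  exact absurd Cardinal.aleph0_lt_continuum (not_lt.2 h1)

lemma exists_uncountable_clique :
    ∃ X : Set G, ¬ X.Countable ∧ ∀ x ∈ X, ∀ y ∈ X, x ≠ y → Edge x y := by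
  obtain ⟨X, hX⟩ : ∃ X : Set G, Maximal (· ∈ {X : Set G | ∀ x ∈ X, ∀ y ∈ X, x ≠ y → Edge x y}) X := by
    refine zorn_subset _ fun c hc hchain => ⟨⋃₀ c, ?_, fun s hs => subset_sUnion_of_mem hs⟩
    rintro x ⟨s, hs, hx⟩ y ⟨t, ht, hy⟩ hxy
    rcases hchain.total hs ht with h | h
    · exact hc ht x (h hx) y hy hxy
    · exact hc hs x hx y (h hy) hxy
  refine ⟨X, fun hcount => ?_, hX.prop⟩
  -- the points having a given first column and listing `X` in the other columns
  have hz : ∀ w : G, ∃ z : G, col 0 z = w ∧ ∀ x ∈ X, ∃ n, x = col n z := by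
    intro w
    rcases X.eq_empty_or_nonempty with hX0 | hXne
    · obtain ⟨z, hz⟩ := exists_cols fun _ => w
      exact ⟨z, hz 0, fun x hx => absurd hx (by rw [hX0]; exact notMem_empty x)⟩
    · obtain ⟨f, hf⟩ := hcount.exists_eq_range hXne
      obtain ⟨z, hz⟩ := exists_cols fun n => match n with
        | 0 => w
        | n + 1 => f n
      refine ⟨z, hz 0, fun x hx => ?_⟩
      rw [hf] at hx
      obtain ⟨n, rfl⟩ := hx
      exact ⟨n + 1, (hz (n + 1)).symm⟩
  choose z hz1 hz2 using hz
  have hall : ∀ w, z w ∈ X := by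
    intro w
    have hcl : (insert (z w) X) ∈ {X : Set G | ∀ x ∈ X, ∀ y ∈ X, x ≠ y → Edge x y} := by
      rintro x (rfl | hx) y (rfl | hy) hxy
      · exact absurd rfl hxy
      · exact Or.inr (hz2 w y hy)
      · exact Or.inl (hz2 w x hx)
      · exact hX.prop x hx y hy hxy
    exact hX.le_of_ge hcl (subset_insert _ _) (mem_insert _ _)
  refine not_countable_G ?_
  have hinj : Function.Injective z := fun a b hab => by rw [← hz1 a, ← hz1 b, hab]
  have h3 : (z ⁻¹' X).Countable := hcount.preimage_of_injOn hinj.injOn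
  exact h3.mono fun w _ => hall w

lemma mem_C_of_edge {x y : G} (hxy : x ≠ y) (h : Edge x y) : e x + e y ∈ C := by
  refine ⟨?_, ?_⟩
  · rcases h with ⟨n, rfl⟩ | ⟨n, rfl⟩
    · exact mem_iUnion.2 ⟨n, y, rfl⟩
    · exact mem_iUnion.2 ⟨n, x, add_comm _ _⟩
  · intro h0
    refine hxy (e_injective ?_)
    have h1 : e x + e y + e y = e y := by
      rw [show e x + e y = 0 from h0, zero_add]
    rwa [add_assoc, add_self, add_zero] at h1

lemma exists_uncountable_disjoint :
    ∃ H : Set (G × G), ¬ H.Countable ∧ DisjTranslates B H := by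
  obtain ⟨X, hX, hcl⟩ := exists_uncountable_clique
  refine ⟨(fun x => (e x, (0 : G))) '' X, fun h => hX ?_, ?_⟩
  · refine countable_of_injective_of_countable_image ?_ h
    intro a _ b _ hab
    exact e_injective (Prod.ext_iff.1 hab).1
  · rintro _ ⟨x, hx, rfl⟩ _ ⟨y, hy, rfl⟩ hxy
    rw [disjoint_iff_mem]
    refine ⟨mem_C_of_edge (fun h => hxy (by rw [h])) (hcl x hx y hy fun h => hxy (by rw [h])), ?_⟩
    exact add_zero (0 : G)

/-! ## No perfect family -/

lemma zero_mem_K (n : ℕ) : (0 : G) ∈ K n := by
  refine ⟨0, ?_⟩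
  change e (col n 0) + e 0 = 0
  rw [show col n 0 = 0 from rfl, add_self]

/-- The combinatorial core: there are no two distinct points `p₁ ≠ p₂` and an infinite set `V`
with all differences in the sets `K n × {0}` for a fixed `n`. -/
lemma core (n : ℕ) {p1 p2 : G × G} (hp : p1 ≠ p2) {V : Set (G × G)} (hV : V.Infinite)
    (h1 : ∀ q ∈ V, (p1 + q).1 ∈ K n ∧ (p1 + q).2 = 0)
    (h2 : ∀ q ∈ V, (p2 + q).1 ∈ K n ∧ (p2 + q).2 = 0) : False := by
  classical
  obtain ⟨L, hL⟩ := exists_coord
  have hself : ∀ z : G × G, z + z = 0 := fun z => Prod.ext (add_self z.1) (add_self z.2)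
  set d : G →₀ ZMod 2 := L ((p1 + p2).1) with hd
  -- the finitely many exceptional points
  have hfin : ((fun y : G => p1 + (e (col n y) + e y, (0 : G))) '' (d.support : Set G) ∪
      (fun y : G => p2 + (e (col n y) + e y, (0 : G))) '' (d.support : Set G) ∪ {p1, p2}).Finite :=
    ((d.support.finite_toSet.image _).union (d.support.finite_toSet.image _)).union
      ((finite_singleton p2).insert p1)
  obtain ⟨q, hq, hqn⟩ := (hV.sdiff hfin).nonempty
  obtain ⟨⟨y, hy⟩, hy0⟩ := h1 q hq
  obtain ⟨⟨z, hz⟩, hz0⟩ := h2 q hq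
  have hqy : q = p1 + (e (col n y) + e y, (0 : G)) := by
    have h : (e (col n y) + e y, (0 : G)) = p1 + q := Prod.ext hy hy0.symm
    rw [h, ← add_assoc, hself, zero_add]
  have hqz : q = p2 + (e (col n z) + e z, (0 : G)) := by
    have h : (e (col n z) + e z, (0 : G)) = p2 + q := Prod.ext hz hz0.symm
    rw [h, ← add_assoc, hself, zero_add]
  have hyd : d y = 0 := by
    by_contra h
    exact hqn (Or.inl (Or.inl ⟨y, by simpa using h, hqy.symm⟩))
  have hzd : d z = 0 := by
    by_contra h
    exact hqn (Or.inl (Or.inr ⟨z, by simpa using h, hqz.symm⟩))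
  have hy1 : col n y ≠ y := by
    intro h
    refine hqn (Or.inr (Or.inl ?_))
    rw [hqy, h, add_self]
    exact add_zero p1
  have hz1 : col n z ≠ z := by
    intro h
    refine hqn (Or.inr (Or.inr ?_))
    rw [hqz, h, add_self]
    exact add_zero p2
  have hsum : (p1 + p2).1 = (e (col n y) + e y) + (e (col n z) + e z) := by
    have h3 : p1 + q + (p2 + q) = p1 + p2 + (q + q) := by abel
    rw [hself, add_zero] at h3
    rw [← h3, Prod.fst_add, ← hy, ← hz]
  have hdsum : d = (Finsupp.single (col n y) 1 + Finsupp.single y 1) +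
      (Finsupp.single (col n z) 1 + Finsupp.single z 1) := by
    rw [hd, hsum, map_add, map_add, map_add, hL, hL, hL, hL]
  have hyz : y ≠ z := by
    intro h
    subst h
    exact hp (add_right_cancel (hqy.symm.trans hqz))
  have a1 := DFunLike.congr_fun hdsum y
  have a2 := DFunLike.congr_fun hdsum z
  rw [hyd] at a1
  rw [hzd] at a2
  simp only [Finsupp.add_apply, Finsupp.single_apply, if_true, if_neg hy1, if_neg hz1,
    if_neg hyz, if_neg hyz.symm, zero_add, add_zero] at a1 a2
  have b1 : col n z = y := by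
    by_contra h
    rw [if_neg h, add_zero] at a1
    exact one_ne_zero a1.symm
  have b2 : col n y = z := by
    by_contra h
    rw [if_neg h, zero_add] at a2
    exact one_ne_zero a2.symm
  refine hp (add_right_cancel (b := (e (col n y) + e y, (0 : G))) ?_)
  rw [← hqy, hqz, b1, b2, add_comm (e z) (e y)]

lemma no_perfect {P : Set (G × G)} (hP : Perfect P) (hne : P.Nonempty) :
    ¬ DisjTranslates B P := by
  intro hdisj
  have hself : ∀ z : G × G, z + z = 0 := fun z => Prod.ext (add_self z.1) (add_self z.2)
  have hcomp : CompactSpace P := isCompact_iff_compactSpace.1 hP.closed.isCompact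
  have hPne : Nonempty P := hne.to_subtype
  have hBaire : BaireSpace (P × P) := BaireSpace.of_t2Space_locallyCompactSpace
  let D : ℕ → Set (P × P) := fun n => {r | ((r.1 : G × G) + r.2).1 ∈ K n ∧ ((r.1 : G × G) + r.2).2 = 0}
  have hcont : Continuous fun r : P × P => (r.1 : G × G) + (r.2 : G × G) :=
    (continuous_subtype_val.comp continuous_fst).add (continuous_subtype_val.comp continuous_snd)
  have hclosed : ∀ n, IsClosed (D n) := fun n =>
    IsClosed.inter ((isCompact_K n).isClosed.preimage (continuous_fst.comp hcont))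
      (isClosed_eq (continuous_snd.comp hcont) continuous_const)
  have hcover : (⋃ n, D n) = univ := by
    refine eq_univ_of_forall fun r => ?_
    by_cases hr : (r.1 : G × G) = r.2
    · refine mem_iUnion.2 ⟨0, ?_⟩
      change ((r.1 : G × G) + r.2).1 ∈ K 0 ∧ ((r.1 : G × G) + r.2).2 = 0
      rw [hr, hself]
      exact ⟨zero_mem_K 0, rfl⟩
    · have h := (disjoint_iff_mem _ _).1 (hdisj r.1 r.1.2 r.2 r.2.2 hr)
      obtain ⟨n, hn⟩ := mem_iUnion.1 h.1.1
      exact mem_iUnion.2 ⟨n, hn, h.2⟩
  obtain ⟨n, ⟨r, hr⟩⟩ := nonempty_interior_of_iUnion_of_closed hclosed hcover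
  obtain ⟨U, V, hU, hV, hrU, hrV, hUV⟩ := isOpen_prod_iff.1 isOpen_interior r.1 r.2 hr
  have hinf : ∀ (W : Set P) (p : P), IsOpen W → p ∈ W → W.Infinite := by
    intro W p hW hp
    have hnb : NeBot (𝓝[≠] p) := by
      have h := hP.acc p.1 p.2
      rw [accPt_iff_frequently] at h
      rw [← mem_closure_iff_nhdsWithin_neBot, mem_closure_iff_nhds]
      intro t ht
      obtain ⟨t', ht', htt⟩ := mem_nhds_subtype P p t |>.1 ht
      obtain ⟨y, ⟨hy1, hy2⟩, hy3⟩ := (h.and_eventually ht').exists
      exact ⟨⟨y, hy2⟩, htt hy3, fun hh => hy1 (congrArg Subtype.val hh)⟩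
    exact infinite_of_mem_nhds p (hW.mem_nhds hp)
  have hUinf := hinf U r.1 hU hrU
  have hVinf := hinf V r.2 hV hrV
  obtain ⟨p1, hp1, p2, hp2, hp12⟩ := hUinf.nontrivial
  refine core n (p1 := p1) (p2 := p2) (V := Subtype.val '' V) (fun h => hp12 (Subtype.ext h))
    (hVinf.image Subtype.val_injective.injOn) ?_ ?_
  · rintro _ ⟨q, hq, rfl⟩
    have h : (p1, q) ∈ D n := interior_subset (hUV (mk_mem_prod hp1 hq))
    exact h
  · rintro _ ⟨q, hq, rfl⟩
    have h : (p2, q) ∈ D n := interior_subset (hUV (mk_mem_prod hp2 hq))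
    exact h

/-! ## Transport to the Cantor group -/

/-- The two halves of a point of `2 ^ ω`. -/
def split (x : G) : G × G := (fun n => x (2 * n), fun n => x (2 * n + 1))

/-- Interleaving of two points of `2 ^ ω`. -/
def merge (p : G × G) : G := fun n => if n % 2 = 0 then p.1 (n / 2) else p.2 (n / 2)

lemma split_merge (p : G × G) : split (merge p) = p := by
  refine Prod.ext (funext fun n => ?_) (funext fun n => ?_)
  · change (if 2 * n % 2 = 0 then p.1 (2 * n / 2) else p.2 (2 * n / 2)) = p.1 n
    rw [if_pos (by omega), show 2 * n / 2 = n by omega]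
  · change (if (2 * n + 1) % 2 = 0 then p.1 ((2 * n + 1) / 2) else p.2 ((2 * n + 1) / 2)) = p.2 n
    rw [if_neg (by omega), show (2 * n + 1) / 2 = n by omega]

lemma merge_split (x : G) : merge (split x) = x := by
  funext n
  change (if n % 2 = 0 then x (2 * (n / 2)) else x (2 * (n / 2) + 1)) = x n
  split_ifs with h
  · rw [show 2 * (n / 2) = n by omega]
  · rw [show 2 * (n / 2) + 1 = n by omega]

lemma continuous_split : Continuous split :=
  (continuous_pi fun n => continuous_apply (A := fun _ => ZMod 2) (2 * n)).prodMk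
    (continuous_pi fun n => continuous_apply (A := fun _ => ZMod 2) (2 * n + 1))

lemma continuous_merge : Continuous merge := by
  refine continuous_pi fun n => ?_
  unfold merge
  split_ifs with h
  · exact (continuous_apply (A := fun _ => ZMod 2) (n / 2)).comp continuous_fst
  · exact (continuous_apply (A := fun _ => ZMod 2) (n / 2)).comp continuous_snd

lemma split_add (x y : G) : split (x + y) = split x + split y := rfl

lemma merge_injective : Function.Injective merge := fun p q h => by
  rw [← split_merge p, ← split_merge q, h]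

lemma split_injective : Function.Injective split := fun p q h => by
  rw [← merge_split p, ← merge_split q, h]

/-- Disjointness is transported by `split`. -/
lemma disjoint_split (x y : G) :
    Disjoint ((fun b => b + x) '' (split ⁻¹' B)) ((fun b => b + y) '' (split ⁻¹' B)) ↔
      Disjoint ((fun b => b + split x) '' B) ((fun b => b + split y) '' B) := by
  constructor
  · intro h
    rw [Set.disjoint_left] at h ⊢
    rintro _ ⟨p, hp, rfl⟩ ⟨q, hq, hqp⟩
    refine h (a := merge p + x) ⟨merge p, by rw [mem_preimage, split_merge]; exact hp, rfl⟩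
      ⟨merge q, by rw [mem_preimage, split_merge]; exact hq, ?_⟩
    refine split_injective ?_
    change split (merge q + y) = split (merge p + x)
    rw [split_add, split_add, split_merge, split_merge]
    exact hqp
  · intro h
    rw [Set.disjoint_left] at h ⊢
    rintro _ ⟨p, hp, rfl⟩ ⟨q, hq, hqp⟩
    refine h (a := split p + split x) ⟨split p, hp, rfl⟩ ⟨split q, hq, ?_⟩
    exact congrArg split hqp

/-- **Main result.** There is (in ZFC) a Borel set `B ⊆ 2 ^ ω` which has uncountably many pairwise
disjoint translates but has no perfect family of pairwise disjoint translates. -/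
theorem result : ∃ B : Set (ℕ → ZMod 2), @MeasurableSet (ℕ → ZMod 2) (borel (ℕ → ZMod 2)) B ∧
    (∃ H : Set (ℕ → ZMod 2), ¬ H.Countable ∧ DisjTranslates B H) ∧
    ¬ ∃ P : Set (ℕ → ZMod 2), P.Nonempty ∧ Perfect P ∧ DisjTranslates B P := by
  refine ⟨split ⁻¹' B, ?_, ?_, ?_⟩
  · let _ : MeasurableSpace G := borel G
    have _ : BorelSpace G := ⟨rfl⟩
    let _ : MeasurableSpace (G × G) := borel (G × G)
    have _ : BorelSpace (G × G) := ⟨rfl⟩
    exact continuous_split.measurable measurableSet_B
  · obtain ⟨H, hH, hd⟩ := exists_uncountable_disjoint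
    refine ⟨split ⁻¹' H, fun h => hH ?_, ?_⟩
    · refine (h.preimage_of_injOn (f := merge) merge_injective.injOn).mono fun p hp => ?_
      rw [mem_preimage, mem_preimage, split_merge]
      exact hp
    · intro x hx y hy hxy
      rw [disjoint_split]
      exact hd _ hx _ hy fun h => hxy (split_injective h)
  · rintro ⟨P, hne, hP, hd⟩
    have hmerge : merge ⁻¹' P = split '' P := by
      ext p
      constructor
      · intro hp
        exact ⟨merge p, hp, split_merge p⟩
      · rintro ⟨x, hx, rfl⟩
        rw [mem_preimage, merge_split]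
        exact hx
    refine no_perfect (P := merge ⁻¹' P) ⟨hP.closed.preimage continuous_merge, ?_⟩ ?_ ?_
    · intro p hp
      have h := hP.acc (merge p) hp
      rw [accPt_iff_nhds] at h ⊢
      intro U hU
      have hU' : split ⁻¹' U ∈ 𝓝 (merge p) := by
        refine continuous_split.continuousAt.preimage_mem_nhds ?_
        rw [split_merge]
        exact hU
      obtain ⟨y, ⟨hy1, hy2⟩, hy3⟩ := h _ hU'
      refine ⟨split y, ⟨hy1, by rw [mem_preimage, merge_split]; exact hy2⟩, fun hh => hy3 ?_⟩
      rw [← merge_split y, hh]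
    · rw [hmerge]
      exact hne.image _
    · rw [hmerge]
      rintro _ ⟨x, hx, rfl⟩ _ ⟨y, hy, rfl⟩ hxy
      rw [← disjoint_split]
      exact hd x hx y hy fun h => hxy (by rw [h])

end Pool.Agent.Results.MP_15e54c_lc.DisjointTranslates
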